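import Pool.Agent.helper25.HH.AllH
import Pool.Agent.helper49.HH.RNG
import Pool.Agent.helper22.HH.AVI
import Pool.Agent.helper50.HH.ACV

/-!
# MP_07c750, project HH: the pure statement `HAL_stmt`
-/

set_option autoImplicit false

namespace Pool.Agent.HH

theorem A_RNG : RNG_stmt := RNG_proof A_RNA A_RNB
theorem A_AVI : AVI_stmt := AVI_proof
theorem A_ACV : ACV_stmt := ACV_proof

/-- **the pure statement** -/
theorem A_HAL : HAL_stmt := HAL_of A_RNG A_AVI A_ACV

end Pool.Agent.HH
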