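import Pool.Agent.helper62.HH.SpecD1
import Pool.Agent.helper52.IR.SpecC

/-!
# MP_07c750 (quantum unique ergodicity, weight 10), project HH (helper17), block D, second half (helper25): the forward and backward functions, the theorem, the mean entropy; rows `hh:X`

Interface of the pure part: `Pool/Agent/helper17/HH/SpecH.lean` (`eta`, `GW`, `GY`, `HAL_stmt`), first half of block D: `Pool/Agent/helper62/HH/SpecD1.lean` (`HLF_stmt`). `p = 4000 m`.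

Rules: row `hh:XXX`: file `Pool/Agent/<seat>/HH/XXX.lean`, `import Pool.Agent.helper25.HH.SpecE` (and what you need), `set_option autoImplicit false`, namespace `Pool.Agent.HH`, auxiliary lemmas prefixed `XXX_`, theorem `XXX_proof (h : YYY_stmt) .. : XXX_stmt`.
No straight double quotes, no `convert`, `congr!`, `native_decide`.
-/

open scoped MatrixGroups ContDiff Topology UpperHalfPlane ComplexConjugate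
open UpperHalfPlane MeasureTheory Filter Set

set_option autoImplicit false

namespace Pool.Agent.HH

open Pool.Agent.RS
open Pool.Agent.MS (bq BB BA SF pf)
open Pool.Agent.HV (FW)
open Pool.Agent.EN (XG MG mkX mkM fl pr)
open Pool.Agent.ER (Low LowJ)

noncomputable section

/-- **Row HFW** (the forward function; medium; helper25; the proof of helper34/IR/FWD.lean with one window for every pair: `[0, 3p]`, `[p, 3p]` and `[i m, j m]` for all `i < j ≤ 4000`; from MS.BXM, IR.SFP, IR.COV, IR.FLI, IR.YVO, IR.CTF, EN.XFL). A window `[s m, (s+t) m]` is the function `Ψ_(s,t)(g a_(s m))`, `Ψ_(s,t)` of BXM for the boxes of COV of the length `t m`.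
`v0`, `v1`: YVO. `cl`: `x = v + e^(-im) z`, `|z| ≤ 1`: `g lM x aM(im) = (g lM v aM(im)) lM z`, CTF with `k = (j - i) m`; `⌊x e^(jm)⌋ - ⌊z e^((j-i)m)⌋` takes two values. -/
def HFW_stmt : Prop := ∀ (Γ : Subgroup SL(2, ℝ)) (μ : Measure (XG Γ)) (ρ : ℝ), QU.SurfaceGroup Γ → IsProbabilityMeasure μ → (∀ t, μ.map (fl Γ t) = μ) → 0 ≤ ρ → ρ < 1 / 2 + eta → ∃ C3 : ℝ, 1 ≤ C3 ∧
  ∀ δ : ℝ, 0 < δ → ∃ m0 : ℕ, ∀ m : ℕ, m0 ≤ m → ∃ Ψ Ψa Ψn Ψl : SL(2, ℝ) → ℝ, SF Γ Ψ Ψa Ψn Ψl ∧ (∀ g, 0 ≤ Ψ g ∧ Ψ g ≤ 1) ∧ (∀ g, |Ψn g| ≤ C3) ∧ (∀ g, |Ψl g| ≤ C3 * Real.exp (3 * (4000 * m))) ∧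
    μ.real (Low Γ μ ρ \ IR.one Γ Ψ) ≤ δ ∧ ∀ g : SL(2, ℝ), GY C3 m (Icc (0 : ℝ) 1 ∩ {v | Ψ (g * lM v) ≠ 0})

/-- **Row HBK** (the backward function; medium; helper25; the proof of helper9/IR/BK2.lean; from MS.BXM, IR.SFP, IR.COV, IR.FLI, IR.LOB, HLF, EN.XFL). `p = 4000 m`. `a` so small that `16 a ≤ b1` (LOB for `1/2 - 1/8000`, `δ/4004`), `a ≤ 1/1600`. `Ap, At, As, Af i` from COV for `Low ρ`, `1/2 + eta - ρ`, lengths `p, 2p, 2p - m, (4000 - i) m`;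
`Ab` from HLF, `|Ab| ≤ C e^((1/2 - 1/4000) p) ≤ e^((1/2 - 1/8000) p)`. `Ψ(g) = Ψ_p(g) Ψ_t(g a_p) Ψ_s(g a_p) Π_(i < 4000) Ψ_i(g a_(3p + i m)) (1 - Ψ_b(g a_(3p)))`. -/
def HBK_stmt : Prop := ∀ (Γ : Subgroup SL(2, ℝ)) (μ : Measure (XG Γ)) (ρ : ℝ), QU.SurfaceGroup Γ → IsProbabilityMeasure μ → (∀ t, μ.map (fl Γ t) = μ) → 0 ≤ ρ → ρ < 1 / 2 + eta → HAL_stmt →
  ∀ Λ2 C3 δ : ℝ, 1 ≤ Λ2 → 1 ≤ C3 → 0 < δ → ∃ m0 : ℕ, ∀ (m : ℕ) (εc : ℝ), m0 ≤ m → εc = Real.pi / (2 * Λ2) * Real.exp (-(3 * (4000 * m))) →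
    ∃ (Ψ Ψa Ψn Ψl : SL(2, ℝ) → ℝ) (B : ℝ), SF Γ Ψ Ψa Ψn Ψl ∧ (∀ g, 0 ≤ Ψ g ∧ Ψ g ≤ 1) ∧ (∀ g, |Ψn g| ≤ B) ∧ (∀ g, |Ψl g| ≤ B) ∧
      μ.real ((Low Γ μ ρ \ Low Γ μ (1 / 2 - 1 / 8000)) \ IR.one Γ Ψ) ≤ δ ∧
      ∀ (l l0 : ℝ) (g : SL(2, ℝ)) (J : Finset ℤ) (cj : ℤ → ℂ) (Y : Set ℝ), 0 ≤ l → l ≤ l0 → l0 ≤ εc / 100 → (∀ j ∈ J, IR.JC {k | Ψ (k * aM (-(3 * (4000 * m)))) ≠ 0} εc l l0 g j) → GY C3 m Y →
        ∫ v in Y, ‖∑ j ∈ J, cj j * Complex.exp (((Real.pi * j * v / 2 : ℝ) : ℂ) * Complex.I)‖ ^ 2 ≤ 32 * Real.exp (-(4000 * m) / 1000000) * ∑ j ∈ J, ‖cj j‖ ^ 2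

/-- **Row HHM** (THE THEOREM for a measure with the property GP; medium; the proof of IRM_core in helper52/IR/IRM.lean, whose lemmas IRM_pt, IRM_cont, IRM_int, IRM_triv, IRM_split, IRM_exp, IRM_mass may be quoted; from RS.GLC, HFW, IR.BK1, HBK, IR.SFP). `h = ρ`, `a1 = 1/2 - 1/8000`, `η'' = 1/32000` (in BK1).
For `0 < e ≤ 1`: `δ = (e/200)²`, `C3` from HFW, `Λ2 = 4 K C3/δ`, BK1 for `a1`, `η''`, mass `e`, HBK for `C3`, mass `e`, HFW for mass `e`; `m` large, `p = 4000 m`, `n = 3 p`, `εc = π/(2 Λ2) e^(-n)`. `Ψ' = 1 - (1 - Ψ1)(1 - Ψ2)`. LFC: `Y = Icc 0 1 ∩ {v | Ψ (g' lM v) ≠ 0}` satisfies `GY C3 m`, its length is `GY.v0`;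
`J1` = the `j` of `Ψ1`: `|J1| vol Y ≤ C1 C3 e^((a1 + η'' + 1/2 + eta - 1) 3p)`, the exponent is negative; the other `j` by HBK (`32 e^(-p/10^6)` is small). So `2 F(ρ) ≤ 1 + 4 e` for all `e`. -/
def HHM_stmt : Prop := HAL_stmt → ∀ (Γ : Subgroup SL(2, ℝ)) (μ : Measure (XG Γ)) (K ρ : ℝ), QU.SurfaceGroup Γ → IsProbabilityMeasure μ → (∀ t, μ.map (fl Γ t) = μ) → 1 ≤ K → IR.GP Γ μ K → 0 ≤ ρ → ρ < 1 / 2 + eta → μ.real (Low Γ μ ρ) ≤ 1 / 2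

/-- **Row MEA** (the mean entropy; SHORT; PURE). `γ = t = ρ0 c/2`, `c' = min (ρ0 c/4) (ε0 t γ/100)`. If `μ {1/2 + ε0 < f ≤ 1 - t} ≥ γ` then `(2 f - 1)(1 - f) ≥ 2 ε0 t` there, so `∫ f ≥ 1/2 + (1/200) 2 ε0 t γ`. Otherwise `μ {f > 1 - t} ≥ 1/2 - γ` (as `μ {f > 1/2 + ε0} ≥ 1/2`), and `f ≥ (1 - t) 1{f > 1 - t} + ρ0 1{ρ0 < f ≤ 1 - t}`
pointwise, so with `A = μ {f > 1 - t}`, `μ {f > ρ0} ≥ 1/2 + c`: `∫ f ≥ (1 - t) A + ρ0 (1/2 + c - A) ≥ (1 - t)(1/2 - γ) + ρ0 (c + γ) ≥ 1/2 - γ - t/2 + ρ0 c = 1/2 + ρ0 c/4` (`ρ0 < 1 - t`; `{f ≤ 1/2 + ε0} ⊆ {f ≤ 1 - t}` is not needed: if `1 - t ≤ 1/2 + ε0` then also `μ {f > 1 - t} ≥ 1/2`). -/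
def MEA_stmt : Prop := ∀ c ρ0 ε0 : ℝ, 0 < c → c ≤ 1 / 2 → 0 < ρ0 → ρ0 ≤ 1 / 2 → 0 < ε0 → ∃ c' : ℝ, 0 < c' ∧ ∀ (X : Type) [MeasurableSpace X] (μ : Measure X) (f : X → ℝ), IsProbabilityMeasure μ → Measurable f → (∀ x, 0 ≤ f x ∧ f x ≤ 1) →
  μ.real {x | f x ≤ ρ0} ≤ 1 / 2 - c → μ.real {x | f x ≤ 1 / 2 + ε0} ≤ 1 / 2 → 1 / 2 + 1 / 200 * ∫ x, max 0 ((2 * f x - 1) * (1 - f x)) ∂μ ≤ ∫ x, f x ∂μ → 1 / 2 + c' ≤ ∫ x, f x ∂μ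

end

end Pool.Agent.HH
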