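import Pool.Agent.helper25.HH.SpecE
import Pool.Agent.helper34.IR.FWD
import Pool.Agent.helper9.IR.BK2

/-!
# MP_07c750, project HH, row HBK: the backward function
-/

open scoped MatrixGroups ContDiff Topology UpperHalfPlane ComplexConjugate
open UpperHalfPlane MeasureTheory Filter Set

set_option autoImplicit false

namespace Pool.Agent.HH

open Pool.Agent.RS
open Pool.Agent.MS (bq BB BA SF pf)
open Pool.Agent.HV (FW)
open Pool.Agent.EN (XG MG mkX mkM fl pr)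
open Pool.Agent.ER (Low LowJ)
open Pool.Agent.IR

noncomputable section

/-- a smooth function with values in `[0, 1]`, equal to `1` on `E` up to a set of measure `d`, supported in `W` -/
def HBK_P (Γ : Subgroup SL(2, ℝ)) (μ : Measure (XG Γ)) (E : Set (XG Γ)) (d : ℝ) (W : Set SL(2, ℝ)) (Ψ : SL(2, ℝ) → ℝ) : Prop :=
  BK2_G Γ Ψ ∧ (∃ B : Set (XG Γ), μ.real B ≤ d ∧ ∀ g, mkX Γ g ∈ E → mkX Γ g ∉ B → Ψ g = 1) ∧ ∀ g, Ψ g ≠ 0 → g ∈ W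

lemma HBK_mul (hSFP : SFP_stmt) {Γ : Subgroup SL(2, ℝ)} {μ : Measure (XG Γ)} {E : Set (XG Γ)} {d d' : ℝ} {W W' : Set SL(2, ℝ)} {Ψ Φ : SL(2, ℝ) → ℝ}
    (h1 : HBK_P Γ μ E d W Ψ) (h2 : HBK_P Γ μ E d' W' Φ) : HBK_P Γ μ E (d + d') (W ∩ W') (fun g => Ψ g * Φ g) := by
  obtain ⟨a1, ⟨B, b1, c1⟩, e1⟩ := h1
  obtain ⟨a2, ⟨B', b2, c2⟩, e2⟩ := h2
  refine ⟨BK2_mul hSFP a1 a2, ⟨B ∪ B', (measureReal_union_le _ _).trans (add_le_add b1 b2), fun g hg hB => ?_⟩, fun g hg => ⟨e1 g (left_ne_zero_of_mul hg), e2 g (right_ne_zero_of_mul hg)⟩⟩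
  rw [mem_union, not_or] at hB
  show Ψ g * Φ g = 1
  rw [c1 g hg hB.1, c2 g hg hB.2, mul_one]

lemma HBK_G {Γ : Subgroup SL(2, ℝ)} {CB : ℝ} {Ψ Ψa Ψn Ψl : SL(2, ℝ) → ℝ} {n : ℝ} (h1 : SF Γ Ψ Ψa Ψn Ψl) (h2 : ∀ g, 0 ≤ Ψ g ∧ Ψ g ≤ 1)
    (h3 : ∀ g, |Ψn g| ≤ CB) (h4 : ∀ g, |Ψl g| ≤ CB * Real.exp n) : BK2_G Γ Ψ :=
  ⟨Ψa, Ψn, Ψl, max CB (CB * Real.exp n), h1, h2, fun g => le_trans (h3 g) (le_max_left _ _), fun g => le_trans (h4 g) (le_max_right _ _)⟩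

/-- one window -/
lemma HBK_box (hSFP : SFP_stmt) (hFLI : FLI_stmt) (hXFL : EN.XFL_stmt) {Γ : Subgroup SL(2, ℝ)} {μ : Measure (XG Γ)} {h a d CB : ℝ} (hΓ : QU.SurfaceGroup Γ)
    (hμ : IsProbabilityMeasure μ) (hinv : ∀ t, μ.map (fl Γ t) = μ)
    (hBX : ∀ (n : ℝ) (A : Finset SL(2, ℝ)), 0 ≤ n →
      ∃ Ψ Ψa Ψn Ψl : SL(2, ℝ) → ℝ, SF Γ Ψ Ψa Ψn Ψl ∧ (∀ g, 0 ≤ Ψ g ∧ Ψ g ≤ 1) ∧ (∀ g, |Ψn g| ≤ CB) ∧ (∀ g, |Ψl g| ≤ CB * Real.exp n) ∧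
        (∀ g, (∃ y ∈ A, ∃ γ : Γ, bq a a (a * Real.exp (-n)) (y⁻¹ * (γ : SL(2, ℝ)) * g)) → Ψ g = 1) ∧
        ∀ g, Ψ g ≠ 0 → ∃ y ∈ A, ∃ γ : Γ, bq (16 * a) (16 * a) (16 * a * Real.exp (-n)) (y⁻¹ * (γ : SL(2, ℝ)) * g))
    (n σ : ℝ) (A : Finset SL(2, ℝ)) (hn : 0 ≤ n) (hA : μ.real (Low Γ μ h \ BX Γ A a n) ≤ d) :
    ∃ Ψ : SL(2, ℝ) → ℝ, HBK_P Γ μ (Low Γ μ h) d {g | g * aM σ ∈ FW Γ A (16 * a) (Real.exp (-n))} Ψ := by
  obtain ⟨Ψ, Ψa, Ψn, Ψl, hS, hr, hn', hl, hone, hsup⟩ := hBX n A hn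
  refine ⟨fun g => Ψ (g * aM σ), BK2_sh hSFP (HBK_G hS hr hn' hl) σ, ⟨{x | x ∈ Low Γ μ h ∧ fl Γ σ x ∉ BX Γ A a n}, (FWD_mass hXFL hFLI hΓ hμ hinv h _ _).trans hA, ?_⟩, ?_⟩
  · intro g hg hgB
    refine FWD_one hXFL hone g ?_
    by_contra hcon
    exact hgB ⟨hg, hcon⟩
  · intro g hg
    exact hsup _ hg

/-- the constants -/
lemma HBK_q {C : ℝ} (hC : 1 ≤ C) : ∃ q1 : ℕ, ∀ q : ℕ, q1 ≤ q →
    C * Real.exp ((1 / 2 - 1 / 4000) * (4000 * q)) ≤ Real.exp ((1 / 2 - 1 / 8000) * (4000 * q)) := by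
  obtain ⟨q1, h1⟩ := exists_nat_ge (Real.log C * 2)
  refine ⟨q1, fun q hq => ?_⟩
  have h2 : Real.log C * 2 ≤ q := le_trans h1 (by exact_mod_cast hq)
  have h3 : C = Real.exp (Real.log C) := (Real.exp_log (by linarith)).symm
  rw [h3, ← Real.exp_add]
  apply Real.exp_le_exp.2
  linarith

theorem HBK_proof (hBXM : MS.BXM_stmt) (hSFP : SFP_stmt) (hCOV : COV_stmt) (hFLI : FLI_stmt)
    (hLOB : LOB_stmt) (hHLF : HLF_stmt) (hXFL : EN.XFL_stmt) : HBK_stmt := by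
  intro Γ μ ρ hΓ hμ hinv hρ0 hρ1 hHAL Λ2 C3 δ hΛ hC3 hδ
  obtain ⟨δ', hδ'⟩ : ∃ δ' : ℝ, δ' = δ / 4004 := ⟨_, rfl⟩
  have hδ'0 : 0 < δ' := by rw [hδ']; positivity
  have hδ'1 : 4004 * δ' = δ := by
    rw [hδ']
    ring
  obtain ⟨a0, ha0, -, hB⟩ := hBXM Γ hΓ
  obtain ⟨b1, hb1, hL⟩ := hLOB Γ μ (1 / 2 - 1 / 8000) hΓ hμ hinv (by norm_num) δ' hδ'0
  obtain ⟨a, ha, haa, hab, hac⟩ : ∃ a : ℝ, 0 < a ∧ a ≤ a0 ∧ 16 * a ≤ b1 ∧ a ≤ 1 / 1600 := by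
    refine ⟨min a0 (min (b1 / 16) (1 / 1600)), ?_, ?_, ?_, ?_⟩
    · refine lt_min ha0 (lt_min (by linarith) (by norm_num))
    · exact min_le_left _ _
    · have : min a0 (min (b1 / 16) (1 / 1600)) ≤ b1 / 16 :=
        le_trans (min_le_right _ _) (min_le_left _ _)
      linarith
    · exact le_trans (min_le_right _ _) (min_le_right _ _)
  obtain ⟨CB, hCB, hBX⟩ := hB a ha haa
  obtain ⟨q1, hq1⟩ := hL (16 * a) (by linarith) hab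
  obtain ⟨CL, m0, hCL, hLX⟩ := hHLF Γ hΓ hHAL a Λ2 C3 ha hac hΛ hC3
  obtain ⟨n0, hn0⟩ := hCOV Γ μ ρ hΓ hμ hinv hρ0 a (1 / 2 + eta - ρ) δ' ha (by linarith) hδ'0
  have e12 : (ρ + (1 / 2 + eta - ρ) : ℝ) = 1 / 2 + eta := by ring
  rw [e12] at hn0
  obtain ⟨q2, hq2⟩ := HBK_q hCL
  refine ⟨max (max q1 q2) (max m0 n0), ?_⟩
  intro m εc hq hεc
  have hqa : q1 ≤ m := le_trans (le_trans (le_max_left _ _) (le_max_left _ _)) hq
  have hqb : q2 ≤ m := le_trans (le_trans (le_max_right _ _) (le_max_left _ _)) hq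
  have hqc : m0 ≤ m := le_trans (le_trans (le_max_left _ _) (le_max_right _ _)) hq
  have hqd : n0 ≤ m := le_trans (le_trans (le_max_right _ _) (le_max_right _ _)) hq
  have hq0 : (0 : ℝ) ≤ m := Nat.cast_nonneg m
  obtain ⟨Ap, hAp, mAp⟩ := hn0 (4000 * m) (by omega)
  obtain ⟨At, hAt, mAt⟩ := hn0 (2 * (4000 * m)) (by omega)
  obtain ⟨As, hAs, mAs⟩ := hn0 (2 * (4000 * m) - m) (by omega)
  have hAf : ∀ i : ℕ, ∃ A : Finset SL(2, ℝ), i < 4000 → (A.card : ℝ) ≤ Real.exp ((1 / 2 + eta) * ((4000 - i) * m)) ∧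
      μ.real (Low Γ μ ρ \ BX Γ A a ((4000 - i) * m)) ≤ δ' := by
    intro i
    by_cases hi : i < 4000
    · have hl1 : m ≤ (4000 - i) * m := Nat.le_mul_of_pos_left m (by omega)
      obtain ⟨A, hA, mA⟩ := hn0 ((4000 - i) * m) (by omega)
      have e1 : (((4000 - i) * m : ℕ) : ℝ) = ((4000 : ℝ) - i) * m := by
        rw [Nat.cast_mul, Nat.cast_sub hi.le]
        push_cast
        rfl
      rw [e1] at hA mA
      exact ⟨A, fun _ => ⟨hA, mA⟩⟩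
    · exact ⟨∅, fun h => absurd h hi⟩
  choose Af hAf' using hAf
  have ecp : ((4000 * m : ℕ) : ℝ) = 4000 * (m : ℝ) := by push_cast; ring
  have ect : ((2 * (4000 * m) : ℕ) : ℝ) = 2 * (4000 * (m : ℝ)) := by push_cast; ring
  have ecs : ((2 * (4000 * m) - m : ℕ) : ℝ) = 2 * (4000 * (m : ℝ)) - m := by
    rw [Nat.cast_sub (by omega), ect]
  rw [ecp] at hAp mAp
  rw [ect] at hAt mAt
  rw [ecs] at hAs mAs
  obtain ⟨Ab, hAb, hint⟩ := hLX m εc Ap At As Af (by omega)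
    (by rw [hεc, ecp]) hAp hAt
    (by
      refine hAs.trans (le_of_eq ?_)
      congr 1
      ring) (fun i hi => (hAf' i hi).1)
  have hx0 : (0 : ℝ) ≤ 4000 * (m : ℝ) := by positivity
  -- the three past windows
  obtain ⟨Ψp, Pp⟩ := HBK_box hSFP hFLI hXFL hΓ hμ hinv hBX (4000 * (m : ℝ)) 0 Ap hx0 mAp
  obtain ⟨Ψt, Pt⟩ := HBK_box hSFP hFLI hXFL hΓ hμ hinv hBX (2 * (4000 * (m : ℝ))) (4000 * (m : ℝ)) At (by positivity) mAt
  obtain ⟨Ψs, Ps⟩ := HBK_box hSFP hFLI hXFL hΓ hμ hinv hBX (2 * (4000 * (m : ℝ)) - m) (4000 * (m : ℝ)) As (by linarith) mAs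
  have P3 := HBK_mul hSFP (HBK_mul hSFP Pp Pt) Ps
  -- the future windows
  have PF : ∀ k : ℕ, k ≤ 4000 → ∃ Ψ : SL(2, ℝ) → ℝ, HBK_P Γ μ (Low Γ μ ρ) ((k + 3) * δ')
      {g | (g * aM 0 ∈ FW Γ Ap (16 * a) (Real.exp (-(4000 * (m : ℝ)))) ∧ g * aM (4000 * (m : ℝ)) ∈ FW Γ At (16 * a) (Real.exp (-(2 * (4000 * (m : ℝ))))) ∧
        g * aM (4000 * (m : ℝ)) ∈ FW Γ As (16 * a) (Real.exp (-(2 * (4000 * (m : ℝ)) - m)))) ∧
        ∀ i : ℕ, i < k → g * aM (3 * (4000 * (m : ℝ)) + i * m) ∈ FW Γ (Af i) (16 * a) (Real.exp (-(((4000 : ℝ) - i) * m)))} Ψ := by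
    intro k
    induction k with
    | zero =>
        intro _
        refine ⟨_, P3.1, ?_, ?_⟩
        · obtain ⟨B, hB1, hB2⟩ := P3.2.1
          refine ⟨B, hB1.trans (le_of_eq ?_), hB2⟩
          push_cast
          ring
        · intro g hg
          have h1 := P3.2.2 g hg
          exact ⟨⟨h1.1.1, h1.1.2, h1.2⟩, fun i hi => absurd hi (Nat.not_lt_zero i)⟩
    | succ k ih =>
        intro hk
        obtain ⟨Ψ, hP⟩ := ih (by omega)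
        have hkG : (k : ℝ) + 1 ≤ 4000 := by exact_mod_cast hk
        have hnk : 0 ≤ ((4000 : ℝ) - k) * (m : ℝ) := mul_nonneg (by linarith) hq0
        obtain ⟨Φ, hΦ⟩ := HBK_box hSFP hFLI hXFL hΓ hμ hinv hBX (((4000 : ℝ) - k) * (m : ℝ)) (3 * (4000 * (m : ℝ)) + k * m) (Af k) hnk (hAf' k (by omega)).2
        have hM := HBK_mul hSFP hP hΦ
        refine ⟨_, hM.1, ?_, ?_⟩
        · obtain ⟨B, hB1, hB2⟩ := hM.2.1
          refine ⟨B, hB1.trans (le_of_eq ?_), hB2⟩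
          push_cast
          ring
        · intro g hg
          have h1 := hM.2.2 g hg
          refine ⟨h1.1.1, fun i hi => ?_⟩
          rcases Nat.lt_or_ge i k with h | h
          · exact h1.1.2 i h
          · obtain rfl : i = k := by omega
            exact h1.2
  obtain ⟨Ψ', ⟨GP', ⟨B', mB', oB'⟩, sP'⟩⟩ := PF 4000 le_rfl
  -- the bad boxes
  obtain ⟨Ψb, Ψba, Ψbn, Ψbl, Sb, Ib, Nb, Lb, Bb, Zb⟩ := hBX (4000 * (m : ℝ)) Ab hx0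
  have Gb := BK2_sub hSFP (BK2_sh hSFP (HBK_G Sb Ib Nb Lb) (3 * (4000 * (m : ℝ))))
  obtain ⟨Ψa, Ψn, Ψl, B, S0, I0, N0, L0⟩ := BK2_mul hSFP GP' Gb
  refine ⟨_, Ψa, Ψn, Ψl, B, S0, I0, N0, L0, ?_, ?_⟩
  · have flm : ∀ (t : ℝ) (g : SL(2, ℝ)), fl Γ t (mkX Γ g) = mkX Γ (g * aM t) :=
      (hXFL Γ).2.2.2.2.2.2.2.2.1
    have hsub : (Low Γ μ ρ \ Low Γ μ (1 / 2 - 1 / 8000)) \
        one Γ (fun g => Ψ' g * (1 - Ψb (g * aM (3 * (4000 * (m : ℝ)))))) ⊆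
        B' ∪ (fl Γ (3 * (4000 * (m : ℝ))) ⁻¹' (BX Γ Ab (16 * a) (4000 * (m : ℝ)) \ Low Γ μ (1 / 2 - 1 / 8000))) := by
      intro x hx
      obtain ⟨⟨hx1, hx2⟩, hx3⟩ := hx
      obtain ⟨g, rfl⟩ := (hXFL Γ).2.2.2.2.1 x
      by_contra hcon
      rw [mem_union, not_or] at hcon
      have d1 : Ψ' g = 1 := oB' g hx1 hcon.1
      have l2 : fl Γ (3 * (4000 * (m : ℝ))) (mkX Γ g) ∉ Low Γ μ (1 / 2 - 1 / 8000) := by
        intro h5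
        have h6 := hFLI Γ μ (1 / 2 - 1 / 8000) (-(3 * (4000 * (m : ℝ)))) _ hΓ hμ hinv h5
        rw [← (hXFL Γ).1.add, neg_add_cancel, (hXFL Γ).1.zero] at h6
        exact hx2 h6
      have c4 : fl Γ (3 * (4000 * (m : ℝ))) (mkX Γ g) ∉ BX Γ Ab (16 * a) (4000 * (m : ℝ)) := by
        intro h5
        exact hcon.2 ⟨h5, l2⟩
      rw [flm] at c4
      have d4 : Ψb (g * aM (3 * (4000 * (m : ℝ)))) = 0 := by
        by_contra h5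
        exact c4 (BK2_box' hXFL Γ Ab (16 * a) _ _ (Zb _ h5))
      apply hx3
      refine ⟨g, rfl, ?_⟩
      show Ψ' g * (1 - Ψb (g * aM (3 * (4000 * (m : ℝ))))) = 1
      rw [d1, d4]
      norm_num
    have e2q : (2 * ((2000 * m : ℕ) : ℝ)) = 4000 * (m : ℝ) := by push_cast; ring
    have m4 := hq1 (2000 * m) (by omega) Ab (by
      rw [e2q]
      exact le_trans hAb (hq2 m hqb))
    rw [e2q] at m4
    calc μ.real _ ≤ μ.real _ := measureReal_mono hsub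
      _ ≤ μ.real _ + μ.real _ := measureReal_union_le _ _
      _ ≤ (((4000 : ℕ) : ℝ) + 3) * δ' + δ' := by
        rw [BK2_fl hXFL Γ μ hinv]
        exact add_le_add mB' m4
      _ = δ := by
        rw [← hδ'1]
        push_cast
        ring
  · intro l l0 g J cj Y hl hll hl0 hJ hY
    have hW : {k : SL(2, ℝ) | (fun g => Ψ' g * (1 - Ψb (g * aM (3 * (4000 * (m : ℝ)))))) (k * aM (-(3 * (4000 * (m : ℝ))))) ≠ 0} ⊆
        (WS Γ Ap At As (16 * a) (4000 * m) m ∩ FG Γ Af (16 * a) m 4000) \ FW Γ Ab a (Real.exp (-((4000 * m : ℕ) : ℝ))) := by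
      intro k hk
      have hk' : Ψ' (k * aM (-(3 * (4000 * (m : ℝ))))) * (1 - Ψb (k * aM (-(3 * (4000 * (m : ℝ)))) * aM (3 * (4000 * (m : ℝ))))) ≠ 0 := hk
      have e0 : aM 0 = 1 := by
        have := BK2_aM 0 0
        rw [add_zero] at this
        exact (mul_eq_left.1 this.symm)
      obtain ⟨⟨f1, f2, f3⟩, f5⟩ := sP' _ (left_ne_zero_of_mul hk')
      have f4 := right_ne_zero_of_mul hk'
      rw [mul_assoc k, ← BK2_aM, neg_add_cancel, e0, mul_one] at f4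
      rw [mul_assoc k, ← BK2_aM, add_zero] at f1
      rw [mul_assoc k, ← BK2_aM, show -(3 * (4000 * (m : ℝ))) + 4000 * (m : ℝ) = -(2 * (4000 * (m : ℝ))) by ring] at f2 f3
      refine ⟨⟨⟨?_, ?_, ?_⟩, ?_⟩, ?_⟩
      · rw [ecp]
        exact f1
      · rw [ecp]
        exact f2
      · rw [ecp]
        exact f3
      · intro i hi
        have h6 := f5 i hi
        rw [mul_assoc k, ← BK2_aM, neg_add_cancel_left] at h6
        push_cast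
        exact h6
      · intro h5
        rw [ecp] at h5
        apply f4
        rw [Bb k h5, sub_self]
    exact hint l l0 g J cj Y hl hll hl0 (fun j hj => BK2_JC hW (hJ j hj)) hY

end

end Pool.Agent.HH
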