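import Pool.Agent.helper52.IR.Spec
import Pool.Agent.helper34.IR.FWD
import Pool.Agent.helper9.IR.BK2

/-!
# MP_07c750, project HH: products of windows
-/

open scoped MatrixGroups ContDiff Topology UpperHalfPlane ComplexConjugate
open UpperHalfPlane MeasureTheory Filter Set

set_option autoImplicit false

namespace Pool.Agent.HH

open Pool.Agent.RS
open Pool.Agent.MS (bq BB BA SF pf)
open Pool.Agent.HV (FW)
open Pool.Agent.EN (XG MG mkX mkM fl pr)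
open Pool.Agent.ER (Low LowJ)
open Pool.Agent.IR

noncomputable section

lemma WIN_const (Γ : Subgroup SL(2, ℝ)) : SF Γ (fun _ => 1) (fun _ => 0) (fun _ => 0) (fun _ => 0) where
  i0 := ⟨continuous_const, fun _ _ => rfl⟩
  ia := ⟨continuous_const, fun _ _ => rfl⟩
  i1 := ⟨continuous_const, fun _ _ => rfl⟩
  il := ⟨continuous_const, fun _ _ => rfl⟩
  da := fun _ => hasDerivAt_const _ _
  dn := fun _ => hasDerivAt_const _ _
  dl := fun _ => hasDerivAt_const _ _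

/-- windows `[s m, (s + t) m]`, `(s, t) ∈ l`, for the set `Low ρ` -/
lemma WIN_list (hSFP : SFP_stmt) (hFLI : FLI_stmt) (hXFL : EN.XFL_stmt) {Γ : Subgroup SL(2, ℝ)} {μ : Measure (XG Γ)} {ρ a d e C : ℝ} (hΓ : QU.SurfaceGroup Γ)
    (hμ : IsProbabilityMeasure μ) (hinv : ∀ t, μ.map (fl Γ t) = μ) (hC : 0 < C)
    (hBX : ∀ (n : ℝ) (A : Finset SL(2, ℝ)), 0 ≤ n →
      ∃ Ψ Ψa Ψn Ψl : SL(2, ℝ) → ℝ, SF Γ Ψ Ψa Ψn Ψl ∧ (∀ g, 0 ≤ Ψ g ∧ Ψ g ≤ 1) ∧ (∀ g, |Ψn g| ≤ C) ∧ (∀ g, |Ψl g| ≤ C * Real.exp n) ∧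
        (∀ g, (∃ y ∈ A, ∃ γ : Γ, bq a a (a * Real.exp (-n)) (y⁻¹ * (γ : SL(2, ℝ)) * g)) → Ψ g = 1) ∧
        ∀ g, Ψ g ≠ 0 → ∃ y ∈ A, ∃ γ : Γ, bq (16 * a) (16 * a) (16 * a * Real.exp (-n)) (y⁻¹ * (γ : SL(2, ℝ)) * g))
    (m N : ℕ) (l : List (ℕ × ℕ)) (hl : ∀ w ∈ l, w.1 + w.2 ≤ N)
    (hA : ∀ w ∈ l, ∃ A : Finset SL(2, ℝ), (A.card : ℝ) ≤ Real.exp (e * (w.2 * m)) ∧ μ.real (Low Γ μ ρ \ BX Γ A a (w.2 * m)) ≤ d) :
    ∃ Ψ Ψa Ψn Ψl : SL(2, ℝ) → ℝ, SF Γ Ψ Ψa Ψn Ψl ∧ (∀ g, 0 ≤ Ψ g ∧ Ψ g ≤ 1) ∧ (∀ g, |Ψn g| ≤ l.length * C) ∧ (∀ g, |Ψl g| ≤ l.length * (C * Real.exp (N * m))) ∧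
      (∃ B : Set (XG Γ), μ.real B ≤ l.length * d ∧ ∀ g, mkX Γ g ∈ Low Γ μ ρ → mkX Γ g ∉ B → Ψ g = 1) ∧
      ∀ w ∈ l, ∃ A : Finset SL(2, ℝ), (A.card : ℝ) ≤ Real.exp (e * (w.2 * m)) ∧ ∀ g, Ψ g ≠ 0 → g * aM (w.1 * m) ∈ FW Γ A (16 * a) (Real.exp (-(w.2 * m))) := by
  induction l with
  | nil =>
      refine ⟨_, _, _, _, WIN_const Γ, fun g => ⟨zero_le_one, le_rfl⟩, fun g => ?_, fun g => ?_, ⟨∅, ?_, fun _ _ _ => rfl⟩, fun w hw => absurd hw (List.not_mem_nil)⟩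
      · simp
      · simp
      · simp
  | cons w l ih =>
      have hm0 : (0 : ℝ) ≤ m := Nat.cast_nonneg m
      obtain ⟨Ψ, Ψa, Ψn, Ψl, g1, g2, g3, g4, ⟨B, g5, g6⟩, g7⟩ := ih (fun w' hw' => hl w' (List.mem_cons_of_mem w hw')) (fun w' hw' => hA w' (List.mem_cons_of_mem w hw'))
      obtain ⟨A, hA1, hA2⟩ := hA w List.mem_cons_self
      have hw : w.1 + w.2 ≤ N := hl w List.mem_cons_self
      have hwR : (w.1 : ℝ) + w.2 ≤ N := by exact_mod_cast hw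
      obtain ⟨Φ, Φa, Φn, Φl, h1, h2, h3, h4, hone, hsup⟩ := hBX (w.2 * m : ℝ) A (by positivity)
      have hSs := (hSFP Γ _ _ _ _ h1).2.2 (w.1 * m : ℝ)
      have k3 : ∀ g, |Real.exp (-(w.1 * m : ℝ)) * Φn (g * aM (w.1 * m))| ≤ C := by
        intro g
        rw [abs_mul, Real.abs_exp]
        have h0 : 0 ≤ (w.1 : ℝ) * m := by positivity
        exact (mul_le_of_le_one_left (abs_nonneg _) (Real.exp_le_one_iff.2 (by linarith))).trans (h3 _)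
      have k4 : ∀ g, |Real.exp (w.1 * m : ℝ) * Φl (g * aM (w.1 * m))| ≤ C * Real.exp (N * m) := by
        intro g
        rw [abs_mul, Real.abs_exp]
        calc Real.exp (w.1 * m : ℝ) * |Φl (g * aM (w.1 * m))| ≤ Real.exp (w.1 * m : ℝ) * (C * Real.exp (w.2 * m : ℝ)) := mul_le_mul_of_nonneg_left (h4 _) (Real.exp_pos _).le
          _ = C * Real.exp (w.1 * m + w.2 * m : ℝ) := by
              rw [mul_left_comm, ← Real.exp_add]
          _ ≤ C * Real.exp (N * m) := by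
              refine mul_le_mul_of_nonneg_left (Real.exp_le_exp.2 ?_) hC.le
              nlinarith
      refine ⟨_, _, _, _, (hSFP Γ _ _ _ _ g1).1 _ _ _ _ hSs, ?_, ?_, ?_, ⟨B ∪ {x | x ∈ Low Γ μ ρ ∧ fl Γ (w.1 * m) x ∉ BX Γ A a (w.2 * m)}, ?_, ?_⟩, ?_⟩
      · intro g
        exact ⟨mul_nonneg (g2 g).1 (h2 _).1, mul_le_one₀ (g2 g).2 (h2 _).1 (h2 _).2⟩
      · intro g
        refine (BK2_mulb (g2 g).1 (g2 g).2 (h2 _).1 (h2 _).2 (g3 g) (k3 g)).trans (le_of_eq ?_)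
        rw [List.length_cons]
        push_cast
        ring
      · intro g
        refine (BK2_mulb (g2 g).1 (g2 g).2 (h2 _).1 (h2 _).2 (g4 g) (k4 g)).trans (le_of_eq ?_)
        rw [List.length_cons]
        push_cast
        ring
      · refine (measureReal_union_le _ _).trans ((add_le_add g5 ((FWD_mass hXFL hFLI hΓ hμ hinv ρ _ _).trans hA2)).trans (le_of_eq ?_))
        rw [List.length_cons]
        push_cast
        ring
      · intro g hg hgB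
        rw [mem_union, not_or] at hgB
        have h8 : Φ (g * aM (w.1 * m)) = 1 := by
          refine FWD_one hXFL hone g ?_
          by_contra hcon
          exact hgB.2 ⟨hg, hcon⟩
        show Ψ g * Φ (g * aM (w.1 * m)) = 1
        rw [g6 g hg hgB.1, h8, mul_one]
      · intro w' hw'
        rcases List.mem_cons.1 hw' with h | h
        · subst h
          exact ⟨A, hA1, fun g hg => hsup _ (right_ne_zero_of_mul hg)⟩
        · obtain ⟨A', hA', hA''⟩ := g7 w' h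
          exact ⟨A', hA', fun g hg => hA'' g (left_ne_zero_of_mul hg)⟩

end

end Pool.Agent.HH
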