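import Pool.Agent.helper25.HH.SpecE
import Pool.Agent.helper25.HH.WIN

/-!
# MP_07c750, project HH, row HFW: the forward function with all windows
-/

open scoped MatrixGroups ContDiff Topology UpperHalfPlane ComplexConjugate
open UpperHalfPlane MeasureTheory Filter Set

set_option autoImplicit false

namespace Pool.Agent.HH

open Pool.Agent.RS
open Pool.Agent.MS (bq BB BA SF pf)
open Pool.Agent.HV (FW)
open Pool.Agent.EN (XG MG mkX mkM fl pr)
open Pool.Agent.ER (Low LowJ)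
open Pool.Agent.IR

noncomputable section

/-- the counting of the cells of a window -/
lemma HFW_cl {Γ : Subgroup SL(2, ℝ)} {C : ℝ}
    (H : ∀ (b k : ℝ) (A : Finset SL(2, ℝ)) (g : SL(2, ℝ)) (T : Finset ℤ), 0 < b → b ≤ 1 / 100 → 0 ≤ k →
      (∀ m ∈ T, ∃ v : ℝ, |v| ≤ 4 ∧ m ≤ v * Real.exp k ∧ v * Real.exp k < m + 1 ∧ g * lM v ∈ FW Γ A b (Real.exp (-k))) → (T.card : ℝ) ≤ C * A.card)
    (hGLC : RS.GLC_stmt) {b s k : ℝ} {A : Finset SL(2, ℝ)} {g : SL(2, ℝ)} {Y : Set ℝ} (hb : 0 < b) (hb1 : b ≤ 1 / 100) (hk : 0 ≤ k)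
    (hY : ∀ x ∈ Y, g * lM x * aM s ∈ FW Γ A b (Real.exp (-k))) (v : ℝ) (K : Finset ℤ)
    (hK : ∀ n ∈ K, ∃ x ∈ Y, |x - v| ≤ Real.exp (-s) ∧ ⌊x * Real.exp (s + k)⌋ = n) : (K.card : ℝ) ≤ 2 * C * A.card := by
  classical
  obtain ⟨-, -, -, -, -, -, -, -, -, -, -, -, hlM, -, -, -, -, -, hla, -⟩ := hGLC
  have hσσ : Real.exp s * Real.exp (-s) = 1 := by rw [← Real.exp_add, add_neg_cancel, Real.exp_zero]
  have hx : ∀ n : ℤ, ∃ x : ℝ, n ∈ K → x ∈ Y ∧ |x - v| ≤ Real.exp (-s) ∧ ⌊x * Real.exp (s + k)⌋ = n := by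
    intro n
    by_cases hn : n ∈ K
    · obtain ⟨x, h1, h2, h3⟩ := hK n hn
      exact ⟨x, fun _ => ⟨h1, h2, h3⟩⟩
    · exact ⟨0, fun h => absurd h hn⟩
  choose x hx using hx
  obtain ⟨f, hf⟩ : ∃ f : ℤ → ℤ, f = fun n => ⌊Real.exp s * (x n - v) * Real.exp k⌋ := ⟨_, rfl⟩
  have key : ∀ x : ℝ, g * lM x * aM s = (g * lM v * aM s) * lM (Real.exp s * (x - v)) := by
    intro x
    have h1 : lM x = lM v * lM (x - v) := by
      rw [← hlM]
      congr 1
      ring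
    rw [h1, ← mul_assoc, mul_assoc (g * lM v), hla, mul_assoc, mul_assoc, mul_assoc]
  have hT := H b k A (g * lM v * aM s) (K.image f) hb hb1 hk (fun t ht => by
    obtain ⟨n, hn, rfl⟩ := Finset.mem_image.1 ht
    obtain ⟨h1, h2, h3⟩ := hx n hn
    refine ⟨Real.exp s * (x n - v), ?_, ?_, ?_, ?_⟩
    · rw [abs_mul, Real.abs_exp]
      calc Real.exp s * |x n - v| ≤ Real.exp s * Real.exp (-s) := mul_le_mul_of_nonneg_left h2 (Real.exp_pos s).le
        _ = 1 := hσσ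
        _ ≤ 4 := by norm_num
    · rw [hf]
      exact Int.floor_le _
    · rw [hf]
      exact Int.lt_floor_add_one _
    · rw [← key]
      exact hY _ h1)
  have hsub : K ⊆ (K.image f).image (fun t => t + ⌊v * Real.exp (s + k)⌋) ∪ (K.image f).image (fun t => t + (⌊v * Real.exp (s + k)⌋ + 1)) := by
    intro n hn
    obtain ⟨h1, h2, h3⟩ := hx n hn
    have e1 : x n * Real.exp (s + k) = v * Real.exp (s + k) + Real.exp s * (x n - v) * Real.exp k := by
      rw [Real.exp_add]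
      ring
    have a1 := Int.floor_le (v * Real.exp (s + k))
    have a2 := Int.lt_floor_add_one (v * Real.exp (s + k))
    have hfn : f n = ⌊Real.exp s * (x n - v) * Real.exp k⌋ := by rw [hf]
    have a3 := Int.floor_le (Real.exp s * (x n - v) * Real.exp k)
    have a4 := Int.lt_floor_add_one (Real.exp s * (x n - v) * Real.exp k)
    rw [← hfn] at a3 a4
    have a5 : f n + ⌊v * Real.exp (s + k)⌋ ≤ n := by
      have h8 : f n + ⌊v * Real.exp (s + k)⌋ ≤ ⌊x n * Real.exp (s + k)⌋ := by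
        rw [Int.le_floor, e1]
        push_cast
        linarith
      rwa [h3] at h8
    have a6 : n < f n + ⌊v * Real.exp (s + k)⌋ + 2 := by
      have h8 : ⌊x n * Real.exp (s + k)⌋ < f n + ⌊v * Real.exp (s + k)⌋ + 2 := by
        rw [Int.floor_lt, e1]
        push_cast
        linarith
      rwa [h3] at h8
    rw [Finset.mem_union]
    rcases lt_or_ge (f n + ⌊v * Real.exp (s + k)⌋) n with h | h
    · right
      refine Finset.mem_image.2 ⟨f n, Finset.mem_image_of_mem f hn, ?_⟩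
      omega
    · left
      refine Finset.mem_image.2 ⟨f n, Finset.mem_image_of_mem f hn, ?_⟩
      omega
  have hc : K.card ≤ (K.image f).card + (K.image f).card :=
    (Finset.card_le_card hsub).trans ((Finset.card_union_le _ _).trans (add_le_add Finset.card_image_le Finset.card_image_le))
  have hc' : (K.card : ℝ) ≤ (K.image f).card + (K.image f).card := by exact_mod_cast hc
  linarith

/-- the length of a window -/
lemma HFW_len {Γ : Subgroup SL(2, ℝ)} {Cy : ℝ} (hY : ∀ (b k σ v0 : ℝ) (A : Finset SL(2, ℝ)) (g : SL(2, ℝ)), 0 < b → b ≤ 1 / 100 → 0 ≤ k →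
    volume.real {v : ℝ | |v - v0| ≤ 4 * Real.exp (-σ) ∧ g * lM v * aM σ ∈ FW Γ A b (Real.exp (-k))} ≤ Cy * A.card * Real.exp (-(σ + k)))
    (hCy : 0 < Cy) {A : Finset SL(2, ℝ)} {b n σ v0 R N : ℝ} (hb : 0 < b) (hb' : b ≤ 1 / 100) (hn : 0 ≤ n) (hA : (A.card : ℝ) ≤ Real.exp R) (hN : σ + n = N)
    (g : SL(2, ℝ)) (S : Set ℝ) (hS : ∀ v ∈ S, |v - v0| ≤ 4 * Real.exp (-σ) ∧ g * lM v * aM σ ∈ FW Γ A b (Real.exp (-n))) : volume.real S ≤ Cy * Real.exp (R - N) := by
  have h2 : S ⊆ {v : ℝ | |v - v0| ≤ 4 * Real.exp (-σ) ∧ g * lM v * aM σ ∈ FW Γ A b (Real.exp (-n))} := fun v hv => hS v hv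
  have h3 : volume {v : ℝ | |v - v0| ≤ 4 * Real.exp (-σ) ∧ g * lM v * aM σ ∈ FW Γ A b (Real.exp (-n))} ≠ ⊤ := by
    have h4 : {v : ℝ | |v - v0| ≤ 4 * Real.exp (-σ) ∧ g * lM v * aM σ ∈ FW Γ A b (Real.exp (-n))} ⊆ Icc (v0 - 4 * Real.exp (-σ)) (v0 + 4 * Real.exp (-σ)) := by
      intro v hv
      have h5 := abs_le.1 hv.1
      exact ⟨by linarith [h5.1], by linarith [h5.2]⟩
    exact ((measure_mono h4).trans_lt (by rw [Real.volume_Icc]; exact ENNReal.ofReal_lt_top)).ne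
  calc volume.real S ≤ volume.real {v : ℝ | |v - v0| ≤ 4 * Real.exp (-σ) ∧ g * lM v * aM σ ∈ FW Γ A b (Real.exp (-n))} := measureReal_mono h2 h3
    _ ≤ Cy * A.card * Real.exp (-(σ + n)) := hY b n σ v0 A g hb hb' hn
    _ ≤ Cy * Real.exp R * Real.exp (-(σ + n)) := by gcongr
    _ = Cy * Real.exp (R - N) := by rw [mul_assoc, ← Real.exp_add, hN, ← sub_eq_add_neg]

/-- the windows `[i m, j m]`, `i < j ≤ 4000` -/
def HFW_l : List (ℕ × ℕ) := (0, 12000) :: (4000, 8000) :: (((Finset.range 4001) ×ˢ (Finset.range 4001)).filter (fun w => 1 ≤ w.2 ∧ w.1 + w.2 ≤ 4000)).toList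

lemma HFW_l1 : ∀ w ∈ HFW_l, w.1 + w.2 ≤ 12000 ∧ 1 ≤ w.2 := by
  intro w hw
  rw [HFW_l, List.mem_cons, List.mem_cons, Finset.mem_toList, Finset.mem_filter] at hw
  rcases hw with h | h | h
  · subst h
    exact ⟨by norm_num, by norm_num⟩
  · subst h
    exact ⟨by norm_num, by norm_num⟩
  · exact ⟨by omega, h.2.1⟩

lemma HFW_l2 (i j : ℕ) (hij : i < j) (hj : j ≤ 4000) : (i, j - i) ∈ HFW_l := by
  rw [HFW_l, List.mem_cons, List.mem_cons, Finset.mem_toList, Finset.mem_filter, Finset.mem_product, Finset.mem_range, Finset.mem_range]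
  right
  right
  refine ⟨⟨?_, ?_⟩, ?_, ?_⟩
  · show i < 4001
    omega
  · show j - i < 4001
    omega
  · show 1 ≤ j - i
    omega
  · show i + (j - i) ≤ 4000
    omega

theorem HFW_proof (hBXM : MS.BXM_stmt) (hSFP : SFP_stmt) (hCOV : COV_stmt) (hFLI : FLI_stmt) (hYVO : YVO_stmt) (hCTF : CTF_stmt) (hXFL : EN.XFL_stmt) (hGLC : RS.GLC_stmt) : HFW_stmt := by
  intro Γ μ ρ hΓ hμ hinv hρ hρ1
  obtain ⟨a0, ha0, ha0', hB⟩ := hBXM Γ hΓ
  obtain ⟨Cy, hCy, hY⟩ := hYVO Γ hΓ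
  obtain ⟨Cf, hCf, hF⟩ := hCTF Γ hΓ
  obtain ⟨a, haa, ha16, ha⟩ : ∃ a : ℝ, a ≤ a0 ∧ 16 * a ≤ 1 / 100 ∧ 0 < a :=
    ⟨min a0 (1 / 1600), min_le_left _ _, by linarith [min_le_right a0 (1 / 1600 : ℝ)], lt_min ha0 (by norm_num)⟩
  obtain ⟨C, hC, hBX⟩ := hB a ha haa
  obtain ⟨Ln, hLn⟩ : ∃ Ln : ℕ, Ln = HFW_l.length := ⟨_, rfl⟩
  have hC3a : Ln * C ≤ Ln * C + Cy + 2 * Cf + 1 := by linarith
  have hC3b : Cy ≤ Ln * C + Cy + 2 * Cf + 1 := by
    have : (0 : ℝ) ≤ Ln * C := by positivity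
    linarith
  have hC3c : 2 * Cf ≤ Ln * C + Cy + 2 * Cf + 1 := by
    have : (0 : ℝ) ≤ Ln * C := by positivity
    linarith
  have hC3d : 1 ≤ Ln * C + Cy + 2 * Cf + 1 := by
    have : (0 : ℝ) ≤ Ln * C := by positivity
    linarith
  obtain ⟨C3, hC3⟩ : ∃ C3 : ℝ, C3 = Ln * C + Cy + 2 * Cf + 1 := ⟨_, rfl⟩
  rw [← hC3] at hC3a hC3b hC3c hC3d
  refine ⟨C3, hC3d, fun δ hδ => ?_⟩
  have hLn1 : (0 : ℝ) < Ln + 1 := by positivity
  obtain ⟨n0, hn0⟩ := hCOV Γ μ ρ hΓ hμ hinv hρ a (1 / 2 + eta - ρ) (δ / (Ln + 1)) ha (by linarith) (by positivity)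
  have e12 : ρ + (1 / 2 + eta - ρ) = 1 / 2 + eta := by ring
  rw [e12] at hn0
  refine ⟨n0, fun m hm => ?_⟩
  have hm0 : (0 : ℝ) ≤ m := Nat.cast_nonneg m
  obtain ⟨Ψ, Ψa, Ψn, Ψl, g1, g2, g3, g4, ⟨B, g5, g6⟩, g7⟩ := WIN_list (ρ := ρ) (a := a) (d := δ / (Ln + 1)) (e := 1 / 2 + eta) hSFP hFLI hXFL hΓ hμ hinv hC hBX m 12000 HFW_l
    (fun w hw => (HFW_l1 w hw).1) (fun w hw => by
      have h1 : m ≤ w.2 * m := Nat.le_mul_of_pos_left m (by have := (HFW_l1 w hw).2; omega)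
      obtain ⟨A, hA1, hA2⟩ := hn0 (w.2 * m) (by omega)
      rw [Nat.cast_mul] at hA1 hA2
      exact ⟨A, hA1, hA2⟩)
  rw [← hLn] at g3 g4 g5
  refine ⟨Ψ, Ψa, Ψn, Ψl, g1, g2, fun g => (g3 g).trans hC3a, fun g => (g4 g).trans ?_, ?_, fun g => ?_⟩
  · rw [← mul_assoc]
    refine mul_le_mul hC3a (le_of_eq ?_) (Real.exp_pos _).le (by linarith)
    congr 1
    push_cast
    ring
  · have hsub : Low Γ μ ρ \ one Γ Ψ ⊆ B := by
      intro x hx
      by_contra hcon
      obtain ⟨g, rfl⟩ := (hXFL Γ).2.2.2.2.1 x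
      exact hx.2 ⟨g, rfl, g6 g hx.1 hcon⟩
    refine (measureReal_mono hsub (measure_ne_top _ _)).trans (g5.trans ?_)
    rw [mul_div_assoc', div_le_iff₀ hLn1]
    nlinarith
  · have haM0 : aM 0 = 1 := by
      have := BK2_aM 0 0
      rw [add_zero] at this
      exact (mul_eq_left.1 this.symm)
    refine ⟨?_, inter_subset_left, ?_, fun v => ?_, fun i j hij hj v K hK => ?_⟩
    · have hlM : Continuous lM := hGLC.2.2.2.2.2.1
      refine measurableSet_Icc.inter ?_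
      have h3 : Continuous fun v : ℝ => Ψ (g * lM v) := g1.i0.1.comp (continuous_const.mul hlM)
      exact (isOpen_ne_fun h3 continuous_const).measurableSet
    · obtain ⟨A, hA1, hA2⟩ := g7 (0, 12000) (by rw [HFW_l]; exact List.mem_cons_self)
      refine (HFW_len hY hCy (v0 := 0) (σ := 0) (N := 3 * (4000 * m)) (n := 12000 * m) (R := (1 / 2 + eta) * (12000 * m)) (A := A) (b := 16 * a) (by positivity) ha16 (by positivity)
        (by
          refine hA1.trans (le_of_eq ?_)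
          push_cast
          rfl) (by ring) g _ ?_).trans ?_
      · rintro v ⟨hv, hv2⟩
        refine ⟨?_, ?_⟩
        · rw [neg_zero, Real.exp_zero, sub_zero, abs_le]
          exact ⟨by linarith [hv.1], by linarith [hv.2]⟩
        · have h5 := hA2 _ hv2
          push_cast at h5
          rw [zero_mul] at h5
          exact h5
      · refine mul_le_mul hC3b (le_of_eq ?_) (Real.exp_pos _).le (by linarith)
        congr 1
        ring
    · obtain ⟨A, hA1, hA2⟩ := g7 (4000, 8000) (by rw [HFW_l]; exact List.mem_cons_of_mem _ List.mem_cons_self)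
      refine (HFW_len hY hCy (v0 := v) (σ := 4000 * m) (N := 3 * (4000 * m)) (n := 8000 * m) (R := (1 / 2 + eta) * (8000 * m)) (A := A) (b := 16 * a) (by positivity) ha16 (by positivity)
        (by
          refine hA1.trans (le_of_eq ?_)
          push_cast
          rfl) (by ring) g _ ?_).trans ?_
      · rintro v' ⟨⟨-, hv2⟩, hv⟩
        refine ⟨?_, ?_⟩
        · rw [abs_le]
          exact ⟨by linarith [hv.1], by linarith [hv.2]⟩
        · have h5 := hA2 _ hv2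
          push_cast at h5
          exact h5
      · refine mul_le_mul hC3b (le_of_eq ?_) (Real.exp_pos _).le (by linarith)
        congr 1
        ring
    · obtain ⟨A, hA1, hA2⟩ := g7 (i, j - i) (HFW_l2 i j hij hj)
      have hijr : ((j - i : ℕ) : ℝ) = (j : ℝ) - i := Nat.cast_sub hij.le
      have hij' : (i : ℝ) ≤ j := by exact_mod_cast hij.le
      have hA1' : (A.card : ℝ) ≤ Real.exp ((1 / 2 + eta) * ((j - i) * m)) := by
        refine hA1.trans (le_of_eq ?_)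
        show Real.exp ((1 / 2 + eta) * (((j - i : ℕ) : ℝ) * m)) = _
        rw [hijr]
      have h6 := HFW_cl (A := A) (g := g) (Y := Icc (0 : ℝ) 1 ∩ {v | Ψ (g * lM v) ≠ 0}) (s := i * m) (k := (j - i) * m) (b := 16 * a) hF hGLC (by positivity) ha16
        (mul_nonneg (by linarith) hm0) (fun x hx => by
          have h7 := hA2 _ hx.2
          have e7 : Real.exp (-(((i, j - i).2 : ℝ) * m)) = Real.exp (-(((j : ℝ) - i) * m)) := by
            show Real.exp (-(((j - i : ℕ) : ℝ) * m)) = _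
            rw [hijr]
          rw [e7] at h7
          exact h7) v K (fun n hn => by
          obtain ⟨x, hx1, hx2, hx3⟩ := hK n hn
          refine ⟨x, hx1, hx2, ?_⟩
          rw [← hx3]
          congr 3
          ring)
      refine h6.trans ?_
      calc 2 * Cf * A.card ≤ 2 * Cf * Real.exp ((1 / 2 + eta) * ((j - i) * m)) := mul_le_mul_of_nonneg_left hA1' (by positivity)
        _ ≤ C3 * Real.exp ((1 / 2 + eta) * ((j - i) * m)) := mul_le_mul_of_nonneg_right hC3c (Real.exp_pos _).le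

end

end Pool.Agent.HH
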