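import Pool.Agent.helper25.HH.SpecE
import Pool.Agent.helper52.IR.IRM

/-! Row `hh:HHM`: the theorem for a measure with the property GP (helper44's proof, adapted to the final interface). -/

set_option autoImplicit false

open scoped MatrixGroups ContDiff Topology UpperHalfPlane ComplexConjugate
open UpperHalfPlane MeasureTheory Filter Set

namespace Pool.Agent.HH

open Pool.Agent.RS
open Pool.Agent.MS (bq BB BA SF pf)
open Pool.Agent.HV (FW)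
open Pool.Agent.EN (XG MG mkX mkM fl pr)
open Pool.Agent.ER (Low LowJ)
open Pool.Agent.IR

theorem HHM_key (hFW : HFW_stmt) (hBK1 : IR.BK1_stmt) (hBK : HBK_stmt) (hSFP : IR.SFP_stmt) (hHAL : HAL_stmt)
    (Γ : Subgroup SL(2, ℝ)) (μ : Measure (XG Γ)) (K ρ : ℝ) (hΓ : QU.SurfaceGroup Γ) (hμ : IsProbabilityMeasure μ)
    (hfl : ∀ t, μ.map (fl Γ t) = μ) (hK : 1 ≤ K) (H : IR.GP Γ μ K) (hρ0 : 0 ≤ ρ) (hρ1 : ρ < 1 / 2 + eta) (e : ℝ) (he : 0 < e) (he1 : e ≤ 1) :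
    μ.real (Low Γ μ ρ) + μ.real (Low Γ μ ρ) ≤ 1 + 4 * e := by
  classical
  obtain ⟨C3, hC3, HF1⟩ := hFW Γ μ ρ hΓ hμ hfl hρ0 hρ1
  obtain ⟨a1, ha1⟩ : ∃ a1 : ℝ, a1 = 1 / 2 - 1 / 8000 := ⟨_, rfl⟩
  obtain ⟨δ, hδ⟩ : ∃ δ, δ = (e / 200) ^ 2 := ⟨_, rfl⟩
  have hδ0 : 0 < δ := by rw [hδ]; positivity
  have hδ1 : δ ≤ 1 := by rw [hδ]; nlinarith
  obtain ⟨Λ2, hΛ⟩ : ∃ Λ2, Λ2 = 4 * K * C3 / δ := ⟨_, rfl⟩
  have hKC : 1 ≤ K * C3 := by nlinarith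
  have hΛ1 : 1 ≤ Λ2 := by
    rw [hΛ, le_div_iff₀ hδ0]
    nlinarith
  obtain ⟨C1, p1, hC1, HB1⟩ := hBK1 Γ μ a1 hΓ hμ hfl (by rw [ha1]; norm_num) Λ2 (1 / 32000) e hΛ1 (by norm_num) he
  obtain ⟨q2, HB2⟩ := hBK Γ μ ρ hΓ hμ hfl hρ0 hρ1 hHAL Λ2 C3 e hΛ1 hC3 he
  obtain ⟨m3, HF2⟩ := HF1 e he
  obtain ⟨q4, HN4⟩ := IRM_exp 32 (1 / 1000) (δ ^ 2 / 512) (by norm_num) (by norm_num) (by positivity)
  obtain ⟨q5, HN5⟩ := IRM_exp (C1 * C3) (1 / 2) (δ ^ 2 / 512) (by positivity) (by norm_num) (by positivity)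
  obtain ⟨m, hm⟩ : ∃ m, m = max (max p1 q2) (max m3 (max q4 q5)) := ⟨_, rfl⟩
  have e1 : p1 ≤ m := by rw [hm]; exact (le_max_left _ _).trans (le_max_left _ _)
  have e2 : q2 ≤ m := by rw [hm]; exact (le_max_right _ _).trans (le_max_left _ _)
  have e3 : m3 ≤ m := by rw [hm]; exact (le_max_left _ _).trans (le_max_right _ _)
  have e4 : q4 ≤ m := by rw [hm]; exact ((le_max_left _ _).trans (le_max_right _ _)).trans (le_max_right _ _)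
  have e5 : q5 ≤ m := by rw [hm]; exact ((le_max_right _ _).trans (le_max_right _ _)).trans (le_max_right _ _)
  have hm0 : (0 : ℝ) ≤ m := Nat.cast_nonneg _
  obtain ⟨εc, hεc⟩ : ∃ εc : ℝ, εc = Real.pi / (2 * Λ2) * Real.exp (-(3 * (4000 * (m : ℝ)))) := ⟨_, rfl⟩
  have hpi := Real.pi_pos
  have hεc0 : 0 < εc := by rw [hεc]; positivity
  obtain ⟨Ψ, Ψa, Ψn, Ψl, hSF, hΨ1, hΨn, hΨl, hΨm, hΨY⟩ := HF2 m e3
  obtain ⟨Ψ1, Ψ1a, Ψ1n, Ψ1l, B1, hSF1, hΨ11, hΨ1n, hΨ1l, hΨ1m, hΨ1J⟩ := HB1 (4000 * m) εc (by omega) (by rw [hεc]; push_cast; rfl)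
  obtain ⟨Ψ2, Ψ2a, Ψ2n, Ψ2l, B2, hSF2, hΨ21, hΨ2n, hΨ2l, hΨ2m, hΨ2J⟩ := HB2 m εc e2 hεc
  have hP := ((hSFP Γ _ _ _ _ ((hSFP Γ _ _ _ _ hSF1).2.1)).1 _ _ _ _ ((hSFP Γ _ _ _ _ hSF2).2.1))
  have hP' := (hSFP Γ _ _ _ _ hP).2.1
  have hb1 : 0 ≤ B1 := (abs_nonneg _).trans (hΨ1n 1)
  have hb2 : 0 ≤ B2 := (abs_nonneg _).trans (hΨ2n 1)
  have hbd : ∀ u v x y : ℝ, 0 ≤ u → u ≤ 1 → 0 ≤ v → v ≤ 1 → |x| ≤ B1 → |y| ≤ B2 →
      |-(-x * (1 - v) + (1 - u) * -y)| ≤ B1 + B2 := by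
    intro u v x y hu hu1 hv hv1 hx hy
    have h3 : |x * (1 - v)| ≤ B1 := by
      rw [abs_mul, abs_of_nonneg (by linarith : (0:ℝ) ≤ 1 - v)]
      calc |x| * (1 - v) ≤ B1 * 1 := mul_le_mul hx (by linarith) (by linarith) hb1
        _ = B1 := mul_one _
    have h4 : |(1 - u) * y| ≤ B2 := by
      rw [abs_mul, abs_of_nonneg (by linarith : (0:ℝ) ≤ 1 - u)]
      calc (1 - u) * |y| ≤ 1 * B2 := mul_le_mul (by linarith) hy (abs_nonneg _) (by linarith)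
        _ = B2 := one_mul _
    have h5 : -(-x * (1 - v) + (1 - u) * -y) = x * (1 - v) + (1 - u) * y := by ring
    rw [h5]
    exact (abs_add_le _ _).trans (add_le_add h3 h4)
  have hcast : (((3 * (4000 * m) : ℕ)) : ℝ) = 3 * (4000 * (m : ℝ)) := by push_cast; ring
  have hcast1 : ((4000 * m : ℕ) : ℝ) = 4000 * (m : ℝ) := by push_cast; ring
  simp only [hcast1] at hΨ1J
  have hL0 : εc = Real.pi / (4 * (2 * K * (C3 * Real.exp ((3 * (4000 * m) : ℕ) : ℝ)) / δ)) := by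
    rw [hεc, hΛ, hcast, Real.exp_neg]
    have h3 : 0 < Real.exp (3 * (4000 * (m:ℝ))) := Real.exp_pos _
    field_simp
  have hmain := H e C3 δ _ εc (B1 + B2) (εc / 100) (3 * (4000 * m)) Ψ Ψa Ψn Ψl _ _ _ _ he he1 hC3 hδ0 hδ.le rfl hL0 (by positivity) hSF hP' hΨ1
    (fun g => by
      have h3 := hΨ11 g
      have h4 := hΨ21 g
      have h5 : 0 ≤ (1 - Ψ1 g) * (1 - Ψ2 g) := mul_nonneg (by linarith) (by linarith)
      have h6 : (1 - Ψ1 g) * (1 - Ψ2 g) ≤ 1 := by nlinarith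
      constructor <;> linarith)
    hΨn (fun g => by rw [hcast]; exact hΨl g)
    (fun g => hbd _ _ _ _ (hΨ11 g).1 (hΨ11 g).2 (hΨ21 g).1 (hΨ21 g).2 (hΨ1n g) (hΨ2n g))
    (fun g => hbd _ _ _ _ (hΨ11 g).1 (hΨ11 g).2 (hΨ21 g).1 (hΨ21 g).2 (hΨ1l g) (hΨ2l g))
    (by
      rw [hcast]
      intro l g g' J cj hl hl0 hJ
      have hGY := hΨY g'
      have hYm := hGY.ms
      have hY1 := hGY.sb
      have hy0 := hGY.v0
      set J1 : Finset ℤ := J.filter (fun j => JC {k | Ψ1 (k * aM (-(3 * (4000 * (m : ℝ))))) ≠ 0} εc l (εc / 100) g j) with hJ1d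
      have hJ1s : J1 ⊆ J := Finset.filter_subset _ _
      have hc1 : (J1.card : ℝ) ≤ C1 * Real.exp ((a1 + 1 / 32000) * (3 * (4000 * (m : ℝ)))) :=
        hΨ1J l (εc / 100) g J1 hl hl0 le_rfl (fun j hj => (Finset.mem_filter.1 hj).2)
      have hI1 := IRM_triv _ hYm hY1 J1 cj _ _ hc1 hy0
      have hI2 := hΨ2J l (εc / 100) g (J \ J1) cj _ hl hl0 le_rfl
        (fun j hj => by
          rw [Finset.mem_sdiff] at hj
          obtain ⟨hj1, u, hu, x, τ, o, e', he', hx, hτ, ho, hW⟩ := hJ j hj.1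
          refine ⟨hj1, u, hu, x, τ, o, e', he', hx, hτ, ho, ?_⟩
          simp only [mem_ofPred_eq] at hW ⊢
          intro h0
          refine hj.2 (Finset.mem_filter.2 ⟨hj.1, hj1, u, hu, x, τ, o, e', he', hx, hτ, ho, ?_⟩)
          simp only [mem_ofPred_eq]
          intro h00
          refine hW ?_
          rw [h0, h00]
          ring)
        hGY
      have hS := IRM_split _ hYm hY1 J J1 hJ1s cj _ _ (by positivity) (by positivity) hI1 hI2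
      refine hS.trans ?_
      refine mul_le_mul_of_nonneg_right ?_ (Finset.sum_nonneg fun j _ => by positivity)
      have hA : C1 * Real.exp ((a1 + 1 / 32000) * (3 * (4000 * (m : ℝ)))) *
          (C3 * Real.exp ((1 / 2 + eta) * (3 * (4000 * (m : ℝ))) - 3 * (4000 * (m : ℝ)))) ≤ δ ^ 2 / 512 := by
        refine le_trans ?_ (HN5 m e5)
        have h3 : C1 * Real.exp ((a1 + 1 / 32000) * (3 * (4000 * (m : ℝ)))) *
            (C3 * Real.exp ((1 / 2 + eta) * (3 * (4000 * (m : ℝ))) - 3 * (4000 * (m : ℝ)))) =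
            C1 * C3 * Real.exp ((a1 + 1 / 32000) * (3 * (4000 * (m : ℝ))) + ((1 / 2 + eta) * (3 * (4000 * (m : ℝ))) - 3 * (4000 * (m : ℝ)))) := by
          rw [Real.exp_add]; ring
        rw [h3]
        refine mul_le_mul_of_nonneg_left (Real.exp_le_exp.2 ?_) (by positivity)
        rw [ha1, eta]
        linarith
      have hB : 32 * Real.exp (-(4000 * (m : ℝ)) / 1000000) ≤ δ ^ 2 / 512 := by
        refine le_trans ?_ (HN4 m e4)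
        refine mul_le_mul_of_nonneg_left (Real.exp_le_exp.2 ?_) (by norm_num)
        linarith
      linarith)
  have hm1 := IRM_mass Γ μ _ _ _ hΨm
  have hm2 : μ.real (Low Γ μ ρ) ≤ μ.real (one Γ (fun g => 1 - (1 - Ψ1 g) * (1 - Ψ2 g))) + 2 * e := by
    have hsub : Low Γ μ ρ ⊆ one Γ (fun g => 1 - (1 - Ψ1 g) * (1 - Ψ2 g)) ∪
        ((Low Γ μ a1 \ one Γ Ψ1) ∪ ((Low Γ μ ρ \ Low Γ μ (1 / 2 - 1 / 8000)) \ one Γ Ψ2)) := by
      intro x hx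
      by_cases hx1 : x ∈ Low Γ μ a1
      · by_cases hx2 : x ∈ one Γ Ψ1
        · obtain ⟨g, hg, hg1⟩ := hx2
          exact Or.inl ⟨g, hg, by simp [hg1]⟩
        · exact Or.inr (Or.inl ⟨hx1, hx2⟩)
      · by_cases hx2 : x ∈ one Γ Ψ2
        · obtain ⟨g, hg, hg1⟩ := hx2
          exact Or.inl ⟨g, hg, by simp [hg1]⟩
        · exact Or.inr (Or.inr ⟨⟨hx, by rw [ha1] at hx1; exact hx1⟩, hx2⟩)
    have h3 := (measureReal_mono (μ := μ) hsub).trans (measureReal_union_le _ _)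
    have h4 := measureReal_union_le (μ := μ) (Low Γ μ a1 \ one Γ Ψ1) ((Low Γ μ ρ \ Low Γ μ (1 / 2 - 1 / 8000)) \ one Γ Ψ2)
    linarith
  linarith

theorem HHM_proof (hFW : HFW_stmt) (hBK1 : IR.BK1_stmt) (hBK : HBK_stmt) (hSFP : IR.SFP_stmt) : HHM_stmt := by
  intro hHAL Γ μ K ρ hΓ hμ hfl hK H hρ0 hρ1
  by_contra hcon
  push Not at hcon
  obtain ⟨t, ht⟩ : ∃ t, t = μ.real (Low Γ μ ρ) - 1 / 2 := ⟨_, rfl⟩
  have ht0 : 0 < t := by rw [ht]; linarith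
  have h3 := HHM_key hFW hBK1 hBK hSFP hHAL Γ μ K ρ hΓ hμ hfl hK H hρ0 hρ1 (min (t / 8) 1) (lt_min (by linarith) one_pos) (min_le_right _ _)
  have h4 : min (t / 8) 1 ≤ t / 8 := min_le_left _ _
  linarith

end Pool.Agent.HH
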