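import Pool.Agent.helper25.IR.Core
import Pool.Agent.helper63.HH.CTG
import Pool.Agent.helper66.HH.GCW
import Pool.Agent.helper62.HH.HBD
import Pool.Agent.helper62.HH.HLF
import Pool.Agent.helper61.HH.MEA
import Pool.Agent.helper25.HH.HFW
import Pool.Agent.helper25.HH.HBK
import Pool.Agent.helper25.HH.HHM

/-!
# MP_07c750, project HH: assembly of block D
-/

set_option autoImplicit false

open scoped MatrixGroups ContDiff Topology UpperHalfPlane ENNReal NNReal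
open UpperHalfPlane MeasureTheory Filter Set

namespace Pool.Agent.HH

open Pool.Agent.RS
open Pool.Agent.MS (bq BB BA SF pf)
open Pool.Agent.EN (XG MG mkX mkM fl pr)
open Pool.Agent.ER (Low)

theorem A_CTG : CTG_stmt := CTG_proof
theorem A_GCW : GCW_stmt := GCW_proof A_CTG RS.A_GLC
theorem A_HBD : HBD_stmt := HBD_proof IR.A_NET IR.A_CNT A_GCW RS.A_GLC
theorem A_HLF : HLF_stmt := HLF_proof A_HBD IR.A_GEO IR.A_TRF IR.A_BLK
theorem A_HFW : HFW_stmt := HFW_proof MS.A_BXM IR.A_SFP IR.A_COV IR.A_FLI IR.A_YVO IR.A_CTF EN.A_XFL RS.A_GLC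
theorem A_HBK : HBK_stmt := HBK_proof MS.A_BXM IR.A_SFP IR.A_COV IR.A_FLI IR.A_LOB A_HLF EN.A_XFL
theorem A_HHM : HHM_stmt := HHM_proof A_HFW IR.A_BK1 A_HBK IR.A_SFP
theorem A_MEA : MEA_stmt := MEA_proof

/-- every flow invariant probability measure with the property `MP` gives at most half of the mass to the points of local entropy `≤ 1/2 + 10^(-7)` -/
theorem half_of_HAL (hHAL : HAL_stmt) (Γ : Subgroup SL(2, ℝ)) (F₀ : Set ℍ) (β α : ℝ → ℝ) (r : ℕ → ℝ) (φ : ℕ → ℍ → ℂ) (μ : Measure (XG Γ)) (hΓ : QU.SurfaceGroup Γ) (hF₀ : QU.NiceDom Γ F₀)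
    (hβ : BB (1 / 4) β) (hα : BA (1 / 8) α) (hr : Tendsto r atTop atTop) (hφ : ∀ k, Eig Γ (r k) (φ k)) (hn : ∀ k, nn F₀ (φ k) = 1)
    (hμ : IsProbabilityMeasure μ) (hfl : ∀ t, μ.map (fl Γ t) = μ) (hMP : IR.MP Γ F₀ β α r φ μ) :
    μ.real (Low Γ μ (1 / 2 + 1 / 10000000)) ≤ 1 / 2 := by
  obtain ⟨K, hK, H⟩ := IR.core_gp Γ F₀ β α hΓ hF₀ hβ hα
  exact A_HHM hHAL Γ μ K (1 / 2 + 1 / 10000000) hΓ hμ hfl hK (H r φ μ hr hφ hn hμ hMP) (by norm_num) (by rw [eta]; norm_num)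

end Pool.Agent.HH
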