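import Pool.Agent.helper25.HH.AllD
import Pool.Agent.helper67.HH.RCV
import Pool.Agent.helper57.HH.RRU
import Pool.Agent.helper30.HH.RPL
import Pool.Agent.helper69.HH.RML
import Pool.Agent.helper98.HH.RLO
import Pool.Agent.helper72.HH.RMS
import Pool.Agent.helper83.HH.RKL
import Pool.Agent.helper71.HH.RCG
import Pool.Agent.helper3.HH.RDN
import Pool.Agent.helper15.HH.RNA
import Pool.Agent.helper45.HH.RNB
import Pool.Agent.helper50.HH.BV3
import Pool.Agent.helper73.HH.BPW
import Pool.Agent.helper43.HH.BPG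
import Pool.Agent.helper20.HH.BCS
import Pool.Agent.helper27.HH.BQW
import Pool.Agent.helper32.HH.BFX
import Pool.Agent.helper31.HH.BMU
import Pool.Agent.helper83.HH.BMF
import Pool.Agent.helper65.HH.BGC
import Pool.Agent.helper48.HH.BWC
import Pool.Agent.helper51.HH.BGR
import Pool.Agent.helper57.HH.BOU
import Pool.Agent.helper40.HH.BFI
import Pool.Agent.helper48.HH.ABG
import Pool.Agent.helper51.HH.AHK
import Pool.Agent.helper96.HH.AHL

/-!
# MP_07c750, project HH: assembly of the pure blocks R, B, A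
-/

set_option autoImplicit false

open scoped MatrixGroups ContDiff Topology UpperHalfPlane ENNReal NNReal
open UpperHalfPlane MeasureTheory Filter Set

namespace Pool.Agent.HH

theorem A_RCV : RCV_stmt := RCV_proof
theorem A_RRU : RRU_stmt := RRU_proof A_RCV
theorem A_RPL : RPL_stmt := RPL_proof A_RCV
theorem A_RML : RML_stmt := RML_proof A_RCV A_RRU
theorem A_RLO : RLO_stmt := RLO_proof A_RCV
theorem A_RMS : RMS_stmt := RMS_proof A_RCV A_RPL A_RML A_RLO
theorem A_RKL : RKL_stmt := RKL_proof A_RCV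
theorem A_RCG : RCG_stmt := RCG_proof A_RLO
theorem A_RDN : RDN_stmt := RDN_proof
theorem A_RNA : RNA_stmt := RNA_proof A_RCV A_RMS A_RKL
theorem A_RNB : RNB_stmt := RNB_proof A_RCV A_RMS A_RCG A_RDN A_RKL
theorem A_BV3 : BV3_stmt := BV3_proof
theorem A_BPW : BPW_stmt := BPW_proof
theorem A_BPG : BPG_stmt := BPG_proof
theorem A_BCS : BCS_stmt := BCS_proof
theorem A_BQW : BQW_stmt := BQW_proof
theorem A_BGR : BGR_stmt := BGR_proof
theorem A_BFX : BFX_stmt := BFX_proof A_BGR
theorem A_BMU : BMU_stmt := BMU_proof A_RCV A_RRU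
theorem A_BMF : BMF_stmt := BMF_proof A_RCV A_BQW
theorem A_BGC : BGC_stmt := BGC_proof A_RCV
theorem A_BWC : BWC_stmt := BWC_proof
theorem A_BOU : BOU_stmt := BOU_proof A_BV3 A_BFX A_BPW A_BPG A_BCS
theorem A_ABG : ABG_stmt := ABG_proof

/-- the three missing rows -/
theorem HAL_of (hRNG : RNG_stmt) (hAVI : AVI_stmt) (hACV : ACV_stmt) : HAL_stmt :=
  AHL_proof (AHK_proof hAVI A_ABG hACV) (BFI_proof A_BOU A_BMU A_BQW A_BMF A_BGC A_BWC hRNG A_RCV)

end Pool.Agent.HH
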