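import Pool.Agent.helper25.HH.AllD
import Pool.Agent.helper25.IR.T1Fin

/-!
# MP_07c750: the final theorem of the projects T1 and HH, from `T1.FN2_stmt` and `HH.HAL_stmt`
-/

set_option autoImplicit false

open scoped MatrixGroups ContDiff Topology UpperHalfPlane ENNReal NNReal
open UpperHalfPlane MeasureTheory Filter Set

namespace Pool.Agent.HH

open Pool.Agent.RS
open Pool.Agent.MS (bq BB BA SF pf)
open Pool.Agent.EN (XG MG mkX mkM fl pr)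
open Pool.Agent.ER (Low)
open Pool.Agent.IR (loc)

/-- **T1 + HH**: absolute `c, ρ0, c' > 0`; for every quantum limit of every closed hyperbolic surface there is a flow invariant lift `μ` with `μ(entropy ≤ ρ0) ≤ 1/2 - c`, `μ(entropy ≤ 1/2 + 10^(-7)) ≤ 1/2`, mean entropy `≥ 1/2 + c'`, the improved reflection inequality and the uniform part. -/
theorem hh_final (hFN2 : T1.FN2_stmt) (hHAL : HAL_stmt) : ∃ c ρ0 c' : ℝ, 0 < c ∧ 0 < ρ0 ∧ 0 < c' ∧ ∀ (Γ : Subgroup SL(2, ℝ)) (F : Set ℍ) (r : ℕ → ℝ) (φ : ℕ → ℍ → ℂ) (ν : Measure (MG Γ)), QU.SurfaceGroup Γ →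
    IsFundamentalDomain Γ F (volume : Measure ℍ) → Tendsto r atTop atTop → (∀ k, Eig Γ (r k) (φ k)) → (∀ k, ∫ z in F, ‖φ k z‖ ^ 2 = 1) → IsFiniteMeasure ν →
    (∀ V : MG Γ → ℝ, Continuous V → Tendsto (fun k => ∫ z in F, V (mkM Γ z) * ‖φ k z‖ ^ 2) atTop (𝓝 (∫ x, V x ∂ν))) →
    ∃ μ : Measure (XG Γ), IsProbabilityMeasure μ ∧ (∀ t, μ.map (fl Γ t) = μ) ∧ μ.map (pr Γ) = ν ∧ (∀ a, MeasurableSet (Low Γ μ a)) ∧ Measurable (loc Γ μ) ∧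
      1 / 2 + c' ≤ ∫ x, loc Γ μ x ∂μ ∧ μ (Low Γ μ (1 / 2 + 1 / 10000000)) ≤ 1 / 2 ∧ μ (Low Γ μ ρ0) ≤ ENNReal.ofReal (1 / 2 - c) ∧
      (∀ a : ℝ, 1 / 2 ≤ a → a < 1 → μ (Low Γ μ a) + μ (Low Γ μ ((1 - a) * (1 + (2 * a - 1) / 200))) ≤ 1) ∧
      (∀ A : Set (MG Γ), MeasurableSet A → μ (Low Γ μ 0) * (volume (F ∩ {z : ℍ | mkM Γ z ∈ A}) / volume F) ≤ ν A) := by
  obtain ⟨-, -, -, -, -, hex⟩ := MS.A_STB
  obtain ⟨β, hβ⟩ := (hex (1 / 4) (by norm_num)).2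
  obtain ⟨α, hα'⟩ := (hex (1 / 8) (by norm_num)).1
  obtain ⟨c, ρ0, hc, hρ, HFN⟩ := hFN2 β α hβ hα'
  obtain ⟨c', hc', HM⟩ := A_MEA (min c (1 / 2)) (min ρ0 (1 / 2)) (1 / 10000000) (lt_min hc (by norm_num)) (min_le_right _ _) (lt_min hρ (by norm_num)) (min_le_right _ _) (by norm_num)
  refine ⟨c, ρ0, c', hc, hρ, hc', ?_⟩
  intro Γ F r φ ν hΓ hF hr hφ hn hfin hν
  obtain ⟨F₀, hF₀, hn0, μ, hμ, hfl, hmap, hMP, HU⟩ := IR.core_lift β α hβ hα' Γ F r φ ν hΓ hF hr hφ hn hfin hν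
  have H2 : ∀ a : ℝ, 1 / 2 ≤ a → a < 1 → μ (Low Γ μ a) + μ (Low Γ μ ((1 - a) * (1 + (2 * a - 1) / 200))) ≤ 1 :=
    fun a ha ha1 => IR.core Γ F₀ β α r φ μ hΓ hF₀ hβ hα' hr hφ hn0 hμ hfl hMP a ha ha1
  obtain ⟨hm, h01, hle, hmean⟩ := IR.core_mean Γ μ hΓ hμ H2
  have h5 : μ.real (Low Γ μ ρ0) ≤ 1 / 2 - c := HFN Γ F₀ r φ μ hΓ hF₀ hr hφ hn0 hμ hfl hMP
  have h6 : μ.real (Low Γ μ (1 / 2 + 1 / 10000000)) ≤ 1 / 2 := half_of_HAL hHAL Γ F₀ β α r φ μ hΓ hF₀ hβ hα' hr hφ hn0 hμ hfl hMP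
  have h7 : μ.real (Low Γ μ (min ρ0 (1 / 2))) ≤ 1 / 2 - min c (1 / 2) := by
    refine le_trans (measureReal_mono (IR.all_mono Γ μ _ ρ0 (min_le_left _ _))) (le_trans h5 ?_)
    linarith [min_le_left c (1 / 2 : ℝ)]
  refine ⟨μ, hμ, hfl, hmap, fun a => ER.Low_meas Γ hΓ μ hμ a, hm, ?_, ?_, ?_, H2, ?_⟩
  · refine HM (XG Γ) μ (loc Γ μ) hμ hm h01 ?_ ?_ hmean
    · rw [hle _ (lt_min hρ (by norm_num)).le (lt_of_le_of_lt (min_le_right _ _) (by norm_num))]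
      exact h7
    · rw [hle _ (by norm_num) (by norm_num)]
      exact h6
  · rw [← ofReal_measureReal (measure_ne_top μ _)]
    refine (ENNReal.ofReal_le_ofReal h6).trans (le_of_eq ?_)
    rw [ENNReal.ofReal_div_of_pos two_pos]
    simp
  · rw [← ofReal_measureReal (measure_ne_top μ _)]
    exact ENNReal.ofReal_le_ofReal h5
  · intro A hA
    have hCV : ∀ a : ℝ, 0 < a → MS.CV Γ μ (μ.real (Low Γ μ 0)) a := by
      intro a ha δ hδ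
      obtain ⟨n0, hn0'⟩ := ER.A_EZR Γ μ 0 (Low Γ μ 0) hΓ hμ hfl le_rfl (ER.A_LDE Γ μ 0 hΓ hμ hfl le_rfl) a ha δ hδ
      refine ⟨n0, fun n hn => ?_⟩
      obtain ⟨B, hB1, hB2⟩ := hn0' n hn
      rw [zero_add] at hB1
      exact ⟨B, hB1, hB2⟩
    have h4 := HU (μ.real (Low Γ μ 0)) measureReal_nonneg measureReal_le_one hCV A
    have hmm : Measurable (mkM Γ) := (EN.A_XFL Γ).2.2.2.2.2.1.measurable
    rw [Measure.smul_apply, Measure.smul_apply, Measure.map_apply hmm hA,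
      Measure.restrict_apply (hmm hA), ofReal_measureReal (measure_ne_top μ _), smul_eq_mul, smul_eq_mul] at h4
    rw [ENNReal.div_eq_inv_mul, Set.inter_comm]
    exact h4

/-- **HH alone**: for every quantum limit a flow invariant lift with `μ(entropy ≤ 1/2 + 10^(-7)) ≤ 1/2`, the improved reflection inequality, the uniform part and the mean bound. -/
theorem hh_alone (hHAL : HAL_stmt) (Γ : Subgroup SL(2, ℝ)) (F : Set ℍ) (r : ℕ → ℝ) (φ : ℕ → ℍ → ℂ) (ν : Measure (MG Γ)) (hΓ : QU.SurfaceGroup Γ)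
    (hF : IsFundamentalDomain Γ F (volume : Measure ℍ)) (hr : Tendsto r atTop atTop) (hφ : ∀ k, Eig Γ (r k) (φ k)) (hn : ∀ k, ∫ z in F, ‖φ k z‖ ^ 2 = 1) (hfin : IsFiniteMeasure ν)
    (hν : ∀ V : MG Γ → ℝ, Continuous V → Tendsto (fun k => ∫ z in F, V (mkM Γ z) * ‖φ k z‖ ^ 2) atTop (𝓝 (∫ x, V x ∂ν))) :
    ∃ μ : Measure (XG Γ), IsProbabilityMeasure μ ∧ (∀ t, μ.map (fl Γ t) = μ) ∧ μ.map (pr Γ) = ν ∧ (∀ a, MeasurableSet (Low Γ μ a)) ∧ Measurable (loc Γ μ) ∧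
      μ (Low Γ μ (1 / 2 + 1 / 10000000)) ≤ 1 / 2 ∧
      (∀ a : ℝ, 1 / 2 ≤ a → a < 1 → μ (Low Γ μ a) + μ (Low Γ μ ((1 - a) * (1 + (2 * a - 1) / 200))) ≤ 1) ∧
      (∀ A : Set (MG Γ), MeasurableSet A → μ (Low Γ μ 0) * (volume (F ∩ {z : ℍ | mkM Γ z ∈ A}) / volume F) ≤ ν A) ∧
      1 / 2 + 1 / 200 * ∫ x, max 0 ((2 * loc Γ μ x - 1) * (1 - loc Γ μ x)) ∂μ ≤ ∫ x, loc Γ μ x ∂μ := by
  obtain ⟨-, -, -, -, -, hex⟩ := MS.A_STB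
  obtain ⟨β, hβ⟩ := (hex (1 / 4) (by norm_num)).2
  obtain ⟨α, hα'⟩ := (hex (1 / 8) (by norm_num)).1
  obtain ⟨F₀, hF₀, hn0, μ, hμ, hfl, hmap, hMP, HU⟩ := IR.core_lift β α hβ hα' Γ F r φ ν hΓ hF hr hφ hn hfin hν
  have H2 : ∀ a : ℝ, 1 / 2 ≤ a → a < 1 → μ (Low Γ μ a) + μ (Low Γ μ ((1 - a) * (1 + (2 * a - 1) / 200))) ≤ 1 :=
    fun a ha ha1 => IR.core Γ F₀ β α r φ μ hΓ hF₀ hβ hα' hr hφ hn0 hμ hfl hMP a ha ha1
  obtain ⟨hm, h01, hle, hmean⟩ := IR.core_mean Γ μ hΓ hμ H2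
  have h6 : μ.real (Low Γ μ (1 / 2 + 1 / 10000000)) ≤ 1 / 2 := half_of_HAL hHAL Γ F₀ β α r φ μ hΓ hF₀ hβ hα' hr hφ hn0 hμ hfl hMP
  refine ⟨μ, hμ, hfl, hmap, fun a => ER.Low_meas Γ hΓ μ hμ a, hm, ?_, H2, ?_, hmean⟩
  · rw [← ofReal_measureReal (measure_ne_top μ _)]
    refine (ENNReal.ofReal_le_ofReal h6).trans (le_of_eq ?_)
    rw [ENNReal.ofReal_div_of_pos two_pos]
    simp
  · intro A hA
    have hCV : ∀ a : ℝ, 0 < a → MS.CV Γ μ (μ.real (Low Γ μ 0)) a := by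
      intro a ha δ hδ
      obtain ⟨n0, hn0'⟩ := ER.A_EZR Γ μ 0 (Low Γ μ 0) hΓ hμ hfl le_rfl (ER.A_LDE Γ μ 0 hΓ hμ hfl le_rfl) a ha δ hδ
      refine ⟨n0, fun n hn => ?_⟩
      obtain ⟨B, hB1, hB2⟩ := hn0' n hn
      rw [zero_add] at hB1
      exact ⟨B, hB1, hB2⟩
    have h4 := HU (μ.real (Low Γ μ 0)) measureReal_nonneg measureReal_le_one hCV A
    have hmm : Measurable (mkM Γ) := (EN.A_XFL Γ).2.2.2.2.2.1.measurable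
    rw [Measure.smul_apply, Measure.smul_apply, Measure.map_apply hmm hA,
      Measure.restrict_apply (hmm hA), ofReal_measureReal (measure_ne_top μ _), smul_eq_mul, smul_eq_mul] at h4
    rw [ENNReal.div_eq_inv_mul, Set.inter_comm]
    exact h4

end Pool.Agent.HH
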