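import Pool.Agent.helper25.HH.HHFin

/-!
# MP_07c750: the final theorem with one absolute constant
-/

set_option autoImplicit false

open scoped MatrixGroups ContDiff Topology UpperHalfPlane ENNReal NNReal
open UpperHalfPlane MeasureTheory Filter Set

namespace Pool.Agent.HH

open Pool.Agent.RS
open Pool.Agent.EN (XG MG mkX mkM fl pr)
open Pool.Agent.ER (Low)
open Pool.Agent.IR (loc)

/-- **T1 + HH**, with one absolute constant -/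
theorem hh_one (hFN2 : T1.FN2_stmt) (hHAL : HAL_stmt) : ∃ c : ℝ, 0 < c ∧ ∀ (Γ : Subgroup SL(2, ℝ)) (F : Set ℍ) (r : ℕ → ℝ) (φ : ℕ → ℍ → ℂ) (ν : Measure (MG Γ)), QU.SurfaceGroup Γ →
    IsFundamentalDomain Γ F (volume : Measure ℍ) → Tendsto r atTop atTop → (∀ k, Eig Γ (r k) (φ k)) → (∀ k, ∫ z in F, ‖φ k z‖ ^ 2 = 1) → IsFiniteMeasure ν →
    (∀ V : MG Γ → ℝ, Continuous V → Tendsto (fun k => ∫ z in F, V (mkM Γ z) * ‖φ k z‖ ^ 2) atTop (𝓝 (∫ x, V x ∂ν))) →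
    ∃ μ : Measure (XG Γ), IsProbabilityMeasure μ ∧ (∀ t, μ.map (fl Γ t) = μ) ∧ μ.map (pr Γ) = ν ∧ (∀ a, MeasurableSet (Low Γ μ a)) ∧ Measurable (loc Γ μ) ∧
      1 / 2 + c ≤ ∫ x, loc Γ μ x ∂μ ∧ μ (Low Γ μ (1 / 2 + 1 / 10 ^ 7)) ≤ 1 / 2 ∧ μ (Low Γ μ c) ≤ ENNReal.ofReal (1 / 2 - c) ∧
      (∀ a : ℝ, 1 / 2 ≤ a → a < 1 → μ (Low Γ μ a) + μ (Low Γ μ ((1 - a) * (1 + (2 * a - 1) / 200))) ≤ 1) ∧
      (∀ A : Set (MG Γ), MeasurableSet A → μ (Low Γ μ 0) * (volume (F ∩ {z : ℍ | mkM Γ z ∈ A}) / volume F) ≤ ν A) := by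
  obtain ⟨c, ρ0, c', hc, hρ, hc', H⟩ := hh_final hFN2 hHAL
  refine ⟨min (min c ρ0) c', lt_min (lt_min hc hρ) hc', ?_⟩
  intro Γ F r φ ν hΓ hF hr hφ hn hfin hν
  obtain ⟨μ, h1, h2, h3, h4, h5, h6, h7, h8, h9, h10⟩ := H Γ F r φ ν hΓ hF hr hφ hn hfin hν
  have e7 : (1 / 10 ^ 7 : ℝ) = 1 / 10000000 := by norm_num
  have l1 : min (min c ρ0) c' ≤ c' := min_le_right _ _
  have l2 : min (min c ρ0) c' ≤ ρ0 := (min_le_left _ _).trans (min_le_right _ _)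
  have l3 : min (min c ρ0) c' ≤ c := (min_le_left _ _).trans (min_le_left _ _)
  refine ⟨μ, h1, h2, h3, h4, h5, by linarith, by rw [e7]; exact h7, ?_, h9, h10⟩
  exact (measure_mono (IR.all_mono Γ μ _ ρ0 l2)).trans (h8.trans (ENNReal.ofReal_le_ofReal (by linarith)))

end Pool.Agent.HH
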